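import Pool.Agent.Lib.MP_3da572_an.UpperIndex
import Pool.Agent.Lib.MP_3da572_an.LowerIndex

set_option autoImplicit false

open Pool.Agent.Lib.MP_3da572_an
open scoped ENNReal

/-- **The numerical index of complex `ℓ_p` is not that of `ℓ_p²`.** There is `p₀ > 2` such that for
every `p` with `2 < p < p₀` the numerical index of the complex space `ℓ_p` is strictly smaller than
the numerical index of the complex two-dimensional space `ℓ_p²`. -/
theorem Pool.Agent.Results.MP_3da572_an.ComplexDisproof.result :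
    ∃ p₀ : ℝ, 2 < p₀ ∧ ∀ (p : ℝ≥0∞) [Fact (1 ≤ p)], 2 < p → p < ENNReal.ofReal p₀ →
      numIndex ℂ (lp (fun _ : ℕ => ℂ) p) < numIndex ℂ (PiLp p (fun _ : Fin 2 => ℂ)) := by
  obtain ⟨ε₁, h1pos, h1⟩ := numIndex_lp_le
  obtain ⟨ε₂, h2pos, h2⟩ := le_numIndex_pi (1 / 200) (by norm_num)
  have hmin : 0 < min ε₁ ε₂ := lt_min h1pos h2pos
  refine ⟨2 + min ε₁ ε₂, by linarith, ?_⟩
  intro p _ hp2 hp0
  have hptop : p ≠ ⊤ := ne_top_of_lt hp0
  have hε : 0 < p.toReal - 2 := by
    have h3 : (2 : ℝ≥0∞).toReal < p.toReal := (ENNReal.toReal_lt_toReal (by simp) hptop).mpr hp2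
    simp only [ENNReal.toReal_ofNat] at h3
    linarith
  have hε2 : p.toReal - 2 < min ε₁ ε₂ := by
    have h3 := (ENNReal.toReal_lt_toReal hptop ENNReal.ofReal_ne_top).mpr hp0
    rw [ENNReal.toReal_ofReal (by linarith)] at h3
    linarith
  have hp : p.toReal = 2 + (p.toReal - 2) := by ring
  have h3 := h1 (p.toReal - 2) hε (hε2.trans_le (min_le_left _ _)) p hp
  have h4 := h2 (p.toReal - 2) hε (hε2.trans_le (min_le_right _ _)) p hp
  linarith
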